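import Pool.Agent.MWGN.StmtsC

set_option autoImplicit false

namespace Pool.Agent.MWGN.H3

open Pool.Agent.Helper14_MV Pool.Agent.Helper2_MV Pool.Agent.MWGN
open Pool.Agent.MWK (pre pre_prefix)

theorem nn_le (w : List ℕ) (c q : ℕ) : nn w c q ≤ w.count c :=
  (pre_prefix w q).sublist.count_le c

/-- the same shape -/
structure Ev (u v : List ℕ) : Prop where
  a : ∀ c, u.count c = 1 → v.count c = 1
  b : ∀ c, 2 ≤ u.count c → 2 ≤ v.count c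
  z : ∀ c q, nn u c q = 0 ↔ nn v c q = 0
  o : ∀ c q, nn u c q = 1 → nn v c q = 1
  f : ∀ c q, nn u c q = u.count c ↔ nn v c q = v.count c

theorem Ev.pos {u v : List ℕ} (h : Ev u v) {c q : ℕ} (h1 : 1 ≤ nn u c q) : 1 ≤ nn v c q := by
  have h2 := h.z c q
  omega

theorem Ev.lt {u v : List ℕ} (h : Ev u v) {c q : ℕ} (h1 : nn u c q < u.count c) :
    nn v c q < v.count c := by
  have h2 := h.f c q
  have h3 := nn_le v c q
  omega

theorem Ev.kf {τ : List ℕ} {r : ℕ} {u v : List ℕ} (h : Ev u v) (k : KF τ r u) : KF τ r v where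
  sb := h.a _ k.sb
  x2 := h.b _ k.x2
  y2 := h.b _ k.y2
  xb := (h.f _ _).1 k.xb
  yb := (h.f _ _).1 k.yb
  l2 := fun i hi => h.b _ (k.l2 i hi)
  lb := fun i hi => h.o _ _ (k.lb i hi)
  c2 := fun i h1 h2 => h.b _ (k.c2 i h1 h2)
  cb := fun i h1 h2 => (h.f _ _).1 (k.cb i h1 h2)
  x0 := h.pos k.x0
  xr := h.lt k.xr
  xt := (h.f _ _).1 k.xt
  y0 := (h.z _ _).1 k.y0
  y1 := h.pos k.y1
  yr := h.lt k.yr
  cl0 := fun i h1 h2 j hj => (h.z _ _).1 (k.cl0 i h1 h2 j hj)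
  cl1 := fun i h1 h2 j h3 h4 => (h.f _ _).1 (k.cl1 i h1 h2 j h3 h4)
  wt := {
    ss := fun i hi => h.a _ (k.wt.ss i hi)
    oS := fun i hi => (h.z _ _).1 (k.wt.oS i hi)
    os := fun i j hi hj hij => (h.z _ _).1 (k.wt.os i j hi hj hij)
    lt := fun i hi => h.o _ _ (k.wt.lt i hi)
    lT := fun i j hi hj hij => (h.f _ _).1 (k.wt.lT i j hi hj hij) }

/-- **KFI** -/
theorem kfi (hinc : IncStmt) : KfiStmt := by
  intro τ r e A M N R k hI u v hu hv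
  obtain ⟨i1, i2, i3, i4, i5, i6⟩ := hinc e A M N R k hI u v hu hv
  have e1 : Ev u v := ⟨fun c => (i1 c).1, fun c => (i2 c).1, i3, fun c q => (i4 c q).1, i5⟩
  have e2 : Ev v u := ⟨fun c => (i1 c).2, fun c => (i2 c).2, fun c q => (i3 c q).symm,
    fun c q => (i4 c q).2, fun c q => (i5 c q).symm⟩
  have hmem : ∀ {c : ℕ}, 2 ≤ u.count c → c ∈ u := fun {c} hc =>
    List.count_pos_iff.1 (by omega)
  refine ⟨⟨e1.kf, e2.kf⟩, ?_, ?_⟩
  · rintro ⟨k1, k2⟩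
    have k3 := e2.kf k1
    exact ⟨k3, i6 _ _ _ (hmem (k3.l2 0 (by omega))) (hmem (k3.l2 (r + 1) (by omega))) k2⟩
  · rintro ⟨k1, k2⟩
    have k3 := e2.kf k1
    exact ⟨k3, i6 _ _ _ (hmem (k3.l2 1 (by omega))) (hmem (k3.l2 (r + 2) (by omega))) k2⟩

end Pool.Agent.MWGN.H3
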